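import Pool.Agent.MWGR.StmtsF

/-!
# Row E0T of MWGR (helper66): if everything crosses then everything is exchanged
-/

set_option autoImplicit false

namespace Pool.Agent.MWGR.H66

open Pool.Agent.Helper14_MV Pool.Agent.Helper2_MV Pool.Agent.MVO Pool.Agent.MWL Pool.Agent.MWS
  Pool.Agent.MWH Pool.Agent.MWGR

theorem ins (hE : ExgStmt) {n : ℕ} {θ : FIC} (hB : BG n (RR θ)) (a b : ℕ) (ha : a ≠ 0)
    (hb : b ≠ 0) (T : List ℕ) (haT : a ∈ T) (hbT : b ∈ T) :
    RR θ (X n ++ a :: (X n ++ b :: (X n ++ T))) (X n ++ a :: (b :: (X n ++ T))) := by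
  obtain ⟨m, rfl⟩ : ∃ m, n = m + 1 := ⟨n - 1, by have := hB.pos; omega⟩
  have h := (hE (m + 1) θ hB (X (m + 1) ++ [a]) (b :: (X (m + 1) ++ T)) 0 (m + 1) 0
    (by unfold Nat.ModEq; simp)).2.2.1 (X m) [a] [b] (X m ++ T)
    (by
      show List.replicate (m + 1) 0 ++ [a] = List.replicate m 0 ++ 0 :: [a]
      rw [List.replicate_succ']
      simp)
    (by
      show b :: (List.replicate (m + 1) 0 ++ T) = [b] ++ 0 :: (List.replicate m 0 ++ T)
      rw [List.replicate_succ]
      rfl)
    (fun c hc => by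
      rw [List.mem_singleton, List.mem_singleton] at hc
      have h1 := List.count_pos_iff.2 haT
      have h2 := List.count_pos_iff.2 hbT
      rcases hc with rfl | rfl
      · simp only [List.count_append, List.count_cons, List.count_nil, BEq.rfl, if_true]
        omega
      · simp only [List.count_append, List.count_cons, List.count_nil, BEq.rfl, if_true]
        omega)
  simp only [List.replicate_zero, List.append_assoc, List.cons_append, List.nil_append] at h
  exact h

theorem ec0 (hE : ExgStmt) {n : ℕ} {θ : FIC} (hB : BG n (RR θ)) (T : List ℕ) (h1 : 1 ∈ T)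
    (h2 : 2 ∈ T) (h : RR θ (X n ++ 1 :: 2 :: (X n ++ T)) (X n ++ 2 :: 1 :: (X n ++ T))) :
    Ec n 0 T (RR θ) := by
  unfold Ec
  rw [Nat.mul_zero, Nat.add_zero]
  exact θ.trans (θ.trans (ins hE hB 1 2 one_ne_zero two_ne_zero T h1 h2) h)
    (RR.symm (ins hE hB 2 1 two_ne_zero one_ne_zero T h2 h1))

theorem alt_eq (k : ℕ) (hk : 3 ≤ k) : ∃ T', alt k = [3, 1, 4, 2, 5, 1] ++ T' := by
  obtain ⟨m, rfl⟩ : ∃ m, k = 3 + m := ⟨k - 3, by omega⟩
  unfold alt
  rw [List.range_add, List.flatMap_append]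
  exact ⟨_, rfl⟩

/-- **E0T** -/
theorem e0t (hE : ExgStmt) (hC : EclStmt) : E0tStmt := by
  intro n θ hB hD c
  have h0 : Es n 0 (RR θ) := by
    refine ec0 hE hB [3, 1, 2] (by simp) (by simp) ?_
    have h := hB.f (X n) (X n ++ [3]) [] [] 1 2 (fun a ha => absurd ha List.not_mem_nil)
    simp only [List.append_assoc, List.cons_append, List.nil_append] at h
    exact h
  refine ⟨hC n θ hB [3, 1, 2] (by simp) (by simp) (by simp) 1 0 c le_rfl hD
    (by rw [Nat.gcd_one_right]; exact one_dvd c) h0, fun hK k hk => ?_⟩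
  obtain ⟨T', hT⟩ := alt_eq k hk
  have m1 : 1 ∈ alt k := by rw [hT]; simp
  have m2 : 2 ∈ alt k := by rw [hT]; simp
  have m0 : 0 ∉ alt k := by
    intro h
    unfold alt at h
    obtain ⟨j, _, hj⟩ := List.mem_flatMap.1 h
    simp only [List.mem_cons, List.not_mem_nil, or_false] at hj
    omega
  refine hC n θ hB (alt k) m1 m2 m0 1 0 c le_rfl hD
    (by rw [Nat.gcd_one_right]; exact one_dvd c) (ec0 hE hB (alt k) m1 m2 ?_)
  have h := RR.sub (fun a => if a = 0 then [1] else if a = 1 then [2] else if a = 2 then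
    X n ++ [3] else if a = 3 then [4] else [5]) hK
  have e1 : ([0, 1, 2, 0, 3, 1, 4, 0] : List ℕ).flatMap (fun a => if a = 0 then [1] else
      if a = 1 then [2] else if a = 2 then X n ++ [3] else if a = 3 then [4] else [5]) =
      1 :: 2 :: (X n ++ [3, 1, 4, 2, 5, 1]) := by
    simp
  have e2 : ([1, 0, 2, 0, 3, 1, 4, 0] : List ℕ).flatMap (fun a => if a = 0 then [1] else
      if a = 1 then [2] else if a = 2 then X n ++ [3] else if a = 3 then [4] else [5]) =
      2 :: 1 :: (X n ++ [3, 1, 4, 2, 5, 1]) := by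
    simp
  rw [e1, e2] at h
  have h' := ((RR.refl (β := θ) (X n)).append h).append (RR.refl (β := θ) T')
  rw [hT]
  simp only [List.append_assoc, List.cons_append, List.nil_append] at h' ⊢
  exact h'

end Pool.Agent.MWGR.H66
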