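import Pool.Agent.MWGR.StmtsN
import Pool.Agent.MWGR.StmtsD

/-!
# Row NFL of MWGR (helper66): the left state of a rigid pair
-/

set_option autoImplicit false

namespace Pool.Agent.MWGR.H66

open Pool.Agent.Helper14_MV Pool.Agent.Helper2_MV Pool.Agent.MVO Pool.Agent.MWL Pool.Agent.MWS
  Pool.Agent.MWH Pool.Agent.MWGR

theorem X_add (m l : ℕ) : X (m + l) = X m ++ X l := List.replicate_add m l 0

theorem Y_add (m l : ℕ) : Y (m + l) = Y m ++ Y l := List.replicate_add m l 1

/-- the substitution -/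
def sg (x a c : ℕ) : List ℕ := if c = x then [0] else if c = a then [1] else []

theorem sg_x {x a : ℕ} (l : List ℕ) (ha : a ∉ l) : l.flatMap (sg x a) = X (l.count x) := by
  induction l with
  | nil => rfl
  | cons c l ih =>
    rw [List.mem_cons, not_or] at ha
    rw [List.flatMap_cons, ih ha.2, List.count_cons]
    unfold sg
    by_cases h : c = x
    · rw [if_pos h, h, if_pos (beq_self_eq_true x), Nat.add_comm, X_add]
      rfl
    · rw [if_neg h, if_neg (fun h' => ha.1 h'.symm), if_neg (by rw [beq_iff_eq]; exact h)]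
      rfl

theorem sg_a {x a : ℕ} (_ : x ≠ a) (l : List ℕ) (hx : x ∉ l) :
    l.flatMap (sg x a) = Y (l.count a) := by
  induction l with
  | nil => rfl
  | cons c l ih =>
    rw [List.mem_cons, not_or] at hx
    rw [List.flatMap_cons, ih hx.2, List.count_cons]
    unfold sg
    rw [if_neg (fun h' => hx.1 h'.symm)]
    by_cases h : c = a
    · rw [if_pos h, h, if_pos (beq_self_eq_true a), Nat.add_comm, Y_add]
      rfl
    · rw [if_neg h, if_neg (by rw [beq_iff_eq]; exact h)]
      rfl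

/-- the facts about one family -/
structure Sd (k i x a : ℕ) (P : ℕ → Prop) (B : ℕ → List ℕ) : Prop where
  a0 : ∀ j < i, a ∉ B j
  a1 : ∀ j, i < j → j ≤ k → ¬ P j → a ∉ B j
  x1 : ∀ j ≤ k, P j → x ∉ B j
  ai : (B i).count a = 1
  xi : 2 ≤ (B i).count x
  ex : ∃ j ≤ k, P j ∧ a ∈ B j

open Classical in
/-- first map -/
noncomputable def f1 (P : ℕ → Prop) (j : ℕ) : ℕ := if P j then 1 else 0

open Classical in
/-- second map -/
noncomputable def f2 (i : ℕ) (P : ℕ → Prop) (j : ℕ) : ℕ :=
  (if i ≤ j then 1 else 0) + (if P j then 1 else 0)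

theorem flat_count {x : ℕ} {B : ℕ → List ℕ} (i : ℕ) :
    ((List.range (i + 1)).flatMap B).count x =
      ((List.range i).flatMap B).count x + (B i).count x := by
  rw [List.range_succ, List.flatMap_append, List.flatMap_cons, List.flatMap_nil,
    List.append_nil, List.count_append]

theorem mid {k i x a : ℕ} {P : ℕ → Prop} {B : ℕ → List ℕ} (hS : Sd k i x a P B)
    (hSP : SptStmt) (R : List ℕ) (hR : a ∉ R) :
    ∃ t, 2 ≤ cb (B i) x a + t ∧
      (B i ++ R).flatMap (sg x a) = X (cb (B i) x a) ++ 1 :: X t := by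
  obtain ⟨U, V, hUV, hU, hV, hc⟩ := hSP (B i) a hS.ai
  have hxi := hS.xi
  rw [hc x]
  by_cases hxa : x = a
  · exfalso
    rw [hxa, hS.ai] at hxi
    omega
  refine ⟨V.count x + R.count x, ?_, ?_⟩
  · rw [hUV, List.count_append, List.count_cons_of_ne (fun h => hxa h.symm)] at hxi
    omega
  · have e : sg x a a = [1] := by
      unfold sg
      rw [if_neg (fun h => hxa h.symm), if_pos rfl]
    rw [hUV, List.append_assoc, List.cons_append, List.flatMap_append, List.flatMap_cons, e,
      List.flatMap_append, sg_x U hU, sg_x V hV, sg_x R hR, X_add]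
    rfl

theorem not_mem_R {k i x a : ℕ} {P : ℕ → Prop} {B : ℕ → List ℕ} (hS : Sd k i x a P B)
    (f : ℕ → ℕ) (v : ℕ) (hi : i ≤ k) (hf : ∀ j, i < j → j ≤ k → f j = v → ¬ P j) :
    a ∉ ((List.range' (i + 1) (k - i)).filter (fun j => decide (f j = v))).flatMap B := by
  intro h
  obtain ⟨j, hj, hj2⟩ := List.mem_flatMap.1 h
  rw [List.mem_filter, decide_eq_true_eq, List.mem_range'_1] at hj
  exact hS.a1 j (by omega) (by omega) (hf j (by omega) (by omega) hj.2) hj2

theorem last_block {k i x a : ℕ} (hxa : x ≠ a) {P : ℕ → Prop} {B : ℕ → List ℕ}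
    (hS : Sd k i x a P B) (f : ℕ → ℕ) (v : ℕ) (hf : ∀ j ≤ k, f j = v ↔ P j) :
    ∃ r, 1 ≤ r ∧ (pshB k f B v).flatMap (sg x a) = Y r := by
  refine ⟨(pshB k f B v).count a, ?_, sg_a hxa _ ?_⟩
  · obtain ⟨j, hj, hP, ha⟩ := hS.ex
    exact List.count_pos_iff.2 (mem_pshB.2 ⟨j, hj, (hf j hj).2 hP, ha⟩)
  · intro h
    obtain ⟨j, hj, hv, hx⟩ := mem_pshB.1 h
    exact hS.x1 j hj ((hf j hj).1 hv) hx

theorem w1 (hPB : PbiStmt) (hSP : SptStmt) {k i x a : ℕ} (hi : i ≤ k) (hxa : x ≠ a)
    {P : ℕ → Prop} (hP : ∀ j, P j → i < j) {B : ℕ → List ℕ} (hS : Sd k i x a P B) :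
    ∃ t r, 1 ≤ r ∧ 2 ≤ cb (B i) x a + t ∧
      asd 0 1 (fun j => (pshB k (f1 P) B j).flatMap (sg x a)) =
        X (((List.range i).flatMap B).count x + cb (B i) x a) ++ 1 :: (X t ++ 2 :: Y r) := by
  have v0 : ∀ j ≤ i, f1 P j = 0 := by
    intro j hj
    unfold f1
    exact if_neg (fun h => by have := hP j h; omega)
  obtain ⟨r, hr, hr2⟩ := last_block hxa hS (f1 P) 1 (fun j _ => by
    unfold f1
    by_cases h : P j
    · rw [if_pos h]; exact ⟨fun _ => h, fun _ => rfl⟩
    · rw [if_neg h]; exact ⟨fun h' => absurd h' zero_ne_one, fun h' => absurd h' h⟩)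
  have hb := hPB k i (f1 P) B hi
  have e1 : (List.range i).filter (fun j => decide (f1 P j = f1 P i)) = List.range i := by
    rw [List.filter_eq_self]
    intro j hj
    rw [decide_eq_true_eq, v0 i le_rfl, v0 j (List.mem_range.1 hj).le]
  rw [e1] at hb
  obtain ⟨t, ht, ht2⟩ := mid hS hSP _ (not_mem_R hS (f1 P) (f1 P i) hi (fun j _ _ h hPj => by
    rw [v0 i le_rfl] at h
    unfold f1 at h
    rw [if_pos hPj] at h
    exact one_ne_zero h))
  refine ⟨t, r, hr, ht, ?_⟩
  have ha : a ∉ (List.range i).flatMap B := by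
    intro h
    obtain ⟨j, hj, hj2⟩ := List.mem_flatMap.1 h
    exact hS.a0 j (List.mem_range.1 hj) hj2
  rw [v0 i le_rfl] at hb ht2
  show (pshB k (f1 P) B 0).flatMap (sg x a) ++ 2 :: (pshB k (f1 P) B 1).flatMap (sg x a) = _
  rw [hr2, hb, List.flatMap_append, sg_x _ ha, ht2, X_add]
  simp only [List.append_assoc, List.cons_append]

theorem w2 (hPB : PbiStmt) (hSP : SptStmt) {k i x a : ℕ} (hi : i ≤ k) (hxa : x ≠ a)
    {P : ℕ → Prop} (hP : ∀ j, P j → i < j) {B : ℕ → List ℕ} (hS : Sd k i x a P B) :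
    ∃ t r, 1 ≤ r ∧ 2 ≤ cb (B i) x a + t ∧
      asd 0 2 (fun j => (pshB k (f2 i P) B j).flatMap (sg x a)) =
        X (((List.range i).flatMap B).count x) ++ 2 :: (X (cb (B i) x a) ++
          1 :: (X t ++ 3 :: Y r)) := by
  have v0 : ∀ j < i, f2 i P j = 0 := by
    intro j hj
    unfold f2
    rw [if_neg (by omega), if_neg (fun h => by have := hP j h; omega)]
  have v1 : f2 i P i = 1 := by
    unfold f2
    rw [if_pos le_rfl, if_neg (fun h => by have := hP i h; omega)]
  obtain ⟨r, hr, hr2⟩ := last_block hxa hS (f2 i P) 2 (fun j _ => by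
    unfold f2
    by_cases h : P j
    · rw [if_pos h, if_pos (hP j h).le]; exact ⟨fun _ => h, fun _ => rfl⟩
    · rw [if_neg h]
      constructor
      · intro h'
        split_ifs at h' <;> omega
      · intro h'
        exact absurd h' h)
  have hb := hPB k i (f2 i P) B hi
  have e1 : (List.range i).filter (fun j => decide (f2 i P j = f2 i P i)) = [] := by
    rw [List.filter_eq_nil_iff]
    intro j hj
    rw [decide_eq_true_eq, v1, v0 j (List.mem_range.1 hj)]
    exact zero_ne_one
  rw [e1, List.flatMap_nil, List.nil_append] at hb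
  obtain ⟨t, ht, ht2⟩ := mid hS hSP _ (not_mem_R hS (f2 i P) (f2 i P i) hi
    (fun j hj _ h hPj => by
      rw [v1] at h
      unfold f2 at h
      rw [if_pos hPj, if_pos hj.le] at h
      omega))
  refine ⟨t, r, hr, ht, ?_⟩
  have ha : a ∉ (List.range i).flatMap B := by
    intro h
    obtain ⟨j, hj, hj2⟩ := List.mem_flatMap.1 h
    exact hS.a0 j (List.mem_range.1 hj) hj2
  have e0 : pshB k (f2 i P) B 0 = (List.range i).flatMap B := by
    unfold pshB
    obtain ⟨s, hs⟩ : ∃ s, k + 1 = i + s := ⟨k + 1 - i, by omega⟩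
    rw [hs, List.range_add, List.filter_append]
    have g1 : (List.range i).filter (fun j => decide (f2 i P j = 0)) = List.range i := by
      rw [List.filter_eq_self]
      intro j hj
      rw [decide_eq_true_eq, v0 j (List.mem_range.1 hj)]
    have g2 : ((List.range s).map (i + ·)).filter (fun j => decide (f2 i P j = 0)) = [] := by
      rw [List.filter_eq_nil_iff]
      intro j hj
      obtain ⟨u, _, hu⟩ := List.mem_map.1 hj
      rw [decide_eq_true_eq]
      unfold f2
      rw [if_pos (by omega)]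
      omega
    rw [g1, g2, List.append_nil]
  rw [v1] at hb ht2
  show ((pshB k (f2 i P) B 0).flatMap (sg x a) ++ 2 :: (pshB k (f2 i P) B 1).flatMap (sg x a)) ++
    3 :: (pshB k (f2 i P) B 2).flatMap (sg x a) = _
  rw [hr2, hb, e0, sg_x _ ha, ht2]
  simp only [List.append_assoc, List.cons_append]

theorem pre_count {k : ℕ} {B : ℕ → List ℕ} {x : ℕ} (hx : NS k x) (i : ℕ) (hi : i ≤ k) :
    (pre B i).count x = ((List.range i).flatMap B).count x := by
  induction i with
  | zero => rfl
  | succ i ih =>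
    rw [flat_count, ← ih (by omega)]
    show (asm i B ++ [i + 2]).count x = _
    rw [asm_pre, List.count_append, List.count_append, List.count_cons_of_ne
      (fun h => hx ⟨by omega, by omega⟩), List.count_nil]
    rfl

/-- the main part -/
theorem core (hPS : PslStmt) (hPB : PbiStmt) (hSP : SptStmt) (hZ : NtzStmt) (hR : NtrStmt)
    (hQ : NtpStmt) {n k : ℕ} {θ : FIC} {B B' : ℕ → List ℕ} (hG : BG n (RR θ)) (hF : BlkOk k B)
    (hF' : BlkOk k B') (h : RR θ (asm k B) (asm k B')) {i x a : ℕ} (hi : i ≤ k) (hxa : x ≠ a)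
    {P : ℕ → Prop} (hP : ∀ j, P j → i < j) (hPm : ∀ j j', j ≤ j' → P j → P j')
    (hS : Sd k i x a P B) (hS' : Sd k i x a P B') (h0 : cb (B i) x a = 0)
    (h1 : 1 ≤ cb (B' i) x a) {p p' : ℕ} (hp : p = ((List.range i).flatMap B).count x)
    (hp' : p' = ((List.range i).flatMap B').count x) :
    (p = 0 → p' = 0 → Ze n (RR θ)) ∧ (p = 1 → p' = 1 → Rh n (RR θ)) ∧
      (2 ≤ p → 2 ≤ p' → Rh' n (RR θ)) := by
  obtain ⟨j0, hj0, hPj0, _⟩ := hS.ex
  have hij0 := hP j0 hPj0
  have pos : 0 < p → 0 < i := by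
    intro h2
    rcases Nat.eq_zero_or_pos i with h3 | h3
    · rw [h3] at hp
      simp at hp
      omega
    · exact h3
  refine ⟨fun q q' => ?_, fun q q' => ?_, fun q q' => ?_⟩
  · have hb : BMap k 1 (f1 P) := by
      constructor
      · intro j j' hj _
        unfold f1
        by_cases h2 : P j
        · rw [if_pos h2, if_pos (hPm j j' hj h2)]
        · rw [if_neg h2]
          exact Nat.zero_le _
      · intro j _
        unfold f1
        split_ifs <;> omega
    have hr := hPS θ k 1 0 (f1 P) B B' (sg x a) hb (by omega) hF hF' h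
    obtain ⟨t, r, hr1, ht, e⟩ := w1 hPB hSP hi hxa hP hS
    obtain ⟨t', r', hr1', ht', e'⟩ := w1 hPB hSP hi hxa hP hS'
    rw [e, e', ← hp, ← hp', q, q', h0] at hr
    rw [Nat.zero_add, Nat.zero_add] at hr
    exact hZ n θ hG t (cb (B' i) x a) t' r r' (by omega) (by omega) h1 hr1 hr1' hr
  · have hii := pos (by omega)
    have hb : BMap k 2 (f2 i P) := by
      constructor
      · intro j j' hj _
        unfold f2
        by_cases h2 : P j
        · rw [if_pos h2, if_pos (hPm j j' hj h2)]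
          split_ifs <;> omega
        · rw [if_neg h2]
          split_ifs <;> omega
      · intro j _
        unfold f2
        split_ifs <;> omega
    have hr := hPS θ k 2 0 (f2 i P) B B' (sg x a) hb (by omega) hF hF' h
    obtain ⟨t, r, hr1, ht, e⟩ := w2 hPB hSP hi hxa hP hS
    obtain ⟨t', r', hr1', ht', e'⟩ := w2 hPB hSP hi hxa hP hS'
    rw [e, e', ← hp, ← hp', q, q', h0] at hr
    exact hR n θ hG t (cb (B' i) x a) t' r r' (by omega) h1 hr1 hr1' hr
  · have hii := pos (by omega)
    have hb : BMap k 2 (f2 i P) := by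
      constructor
      · intro j j' hj _
        unfold f2
        by_cases h2 : P j
        · rw [if_pos h2, if_pos (hPm j j' hj h2)]
          split_ifs <;> omega
        · rw [if_neg h2]
          split_ifs <;> omega
      · intro j _
        unfold f2
        split_ifs <;> omega
    have hr := hPS θ k 2 0 (f2 i P) B B' (sg x a) hb (by omega) hF hF' h
    obtain ⟨t, r, hr1, ht, e⟩ := w2 hPB hSP hi hxa hP hS
    obtain ⟨t', r', hr1', ht', e'⟩ := w2 hPB hSP hi hxa hP hS'
    rw [e, e', ← hp, ← hp', h0] at hr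
    exact hQ n θ hG p p' t (cb (B' i) x a) t' r r' q q' (by omega) h1 hr1 hr1' hr

/-- **NFL** -/
theorem nfl (hPS : PslStmt) (hPB : PbiStmt) (hSP : SptStmt) (_ : EvlStmt) (hZ : NtzStmt)
    (hR : NtrStmt) (hQ : NtpStmt) : NflStmt := by
  intro n k θ B B' hG hF h i x a hi hxa hx ha hRg hne
  have hxB : x ∈ B i := List.count_pos_iff.1 (by omega)
  have haB : a ∈ B i := List.count_pos_iff.1 (by omega)
  have nx : NS k x := hF.ok.ok i hi x hxB
  have na : NS k a := hF.ok.ok i hi a haB
  have mem : ∀ c, NS k c → ∀ j ≤ k, (c ∈ B j ↔ c ∈ B' j) := by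
    intro c hc j hj
    have h1 := hF.eq c hc j hj
    unfold ty at h1
    rw [← List.count_pos_iff, ← List.count_pos_iff]
    omega
  obtain ⟨P, hPd⟩ : ∃ P : ℕ → Prop, P = fun j => ∃ j', i < j' ∧ j' ≤ j ∧ a ∈ B j' := ⟨_, rfl⟩
  have hP : ∀ j, P j → i < j := by
    intro j hj
    rw [hPd] at hj
    obtain ⟨j', h1, h2, _⟩ := hj
    omega
  have hPm : ∀ j j', j ≤ j' → P j → P j' := by
    intro j j' hjj hj
    rw [hPd] at hj ⊢
    obtain ⟨j1, h1, h2, h3⟩ := hj
    exact ⟨j1, h1, h2.trans hjj, h3⟩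
  have gm := hF.gm a na
  have ha0 : ∀ j < i, a ∉ B j := by
    intro j hj h1
    have h2 := gm j i hj hi (by unfold ty; exact (List.count_pos_iff.2 h1).ne')
      (by unfold ty; omega)
    unfold ty at h2
    omega
  have hbe : ∃ j, i < j ∧ j ≤ k ∧ a ∈ B j := by
    by_contra hcon
    have h1 := hF.ok.ml i hi a haB
    unfold deg at h1
    rw [Finset.sum_eq_single i (fun j hj hji => by
      rw [Finset.mem_range] at hj
      rw [List.count_eq_zero]
      intro h2
      rcases Nat.lt_or_ge j i with h3 | h3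
      · exact ha0 j h3 h2
      · exact hcon ⟨j, by omega, by omega, h2⟩) (fun h2 => by
        exfalso
        exact h2 (Finset.mem_range.2 (by omega)))] at h1
    omega
  have hS : Sd k i x a P B := by
    refine ⟨ha0, fun j h1 h2 h3 h4 => h3 ?_, fun j h1 h2 h3 => ?_, ha, hx, ?_⟩
    · rw [hPd]
      exact ⟨j, h1, le_rfl, h4⟩
    · rw [hPd] at h2
      obtain ⟨j', h4, h5, h6⟩ := h2
      have := hRg j' j h4 (by omega) (by omega) h1 h6 h3
      omega
    · obtain ⟨j, h1, h2, h3⟩ := hbe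
      refine ⟨j, h2, ?_, h3⟩
      rw [hPd]
      exact ⟨j, h1, le_rfl, h3⟩
  have hS' : Sd k i x a P B' := by
    refine ⟨fun j h1 h2 => hS.a0 j h1 ((mem a na j (by omega)).2 h2),
      fun j h1 h2 h3 h4 => hS.a1 j h1 h2 h3 ((mem a na j h2).2 h4),
      fun j h1 h2 h3 => hS.x1 j h1 h2 ((mem x nx j h1).2 h3), ?_, ?_, ?_⟩
    · have h1 := hF.eq a na i hi
      unfold ty at h1
      omega
    · have h1 := hF.eq x nx i hi
      unfold ty at h1
      omega
    · obtain ⟨j, h1, h2, h3⟩ := hS.ex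
      exact ⟨j, h1, h2, (mem a na j h1).1 h3⟩
  have hpp : ∀ l ≤ i, ((List.range l).flatMap B).count x = ((List.range l).flatMap B').count x ∨
      (2 ≤ ((List.range l).flatMap B).count x ∧ 2 ≤ ((List.range l).flatMap B').count x) := by
    intro l
    induction l with
    | zero => intro _; exact Or.inl rfl
    | succ l ih =>
      intro hl
      have h1 := ih (by omega)
      have h2 := hF.eq x nx l (by omega)
      unfold ty at h2
      rw [flat_count, flat_count]
      omega
  have hpi := hpp i le_rfl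
  rw [pre_count nx i hi]
  by_cases h0 : cb (B i) x a = 0
  · have h1 : 1 ≤ cb (B' i) x a := by
      rcases Nat.eq_zero_or_pos (cb (B' i) x a) with h2 | h2
      · exact absurd ⟨fun _ => h2, fun _ => h0⟩ hne
      · exact h2
    obtain ⟨c1, c2, c3⟩ := core hPS hPB hSP hZ hR hQ hG hF.ok.ok hF.ok'.ok h hi hxa hP hPm hS hS'
      h0 h1 rfl rfl
    exact ⟨fun h2 => c1 h2 (by omega), fun h2 => c2 h2 (by omega), fun h2 => c3 h2 (by omega)⟩
  · have h1 : cb (B' i) x a = 0 := by
      by_contra h2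
      exact hne ⟨fun h3 => absurd h3 h0, fun h3 => absurd h3 h2⟩
    obtain ⟨c1, c2, c3⟩ := core hPS hPB hSP hZ hR hQ hG hF.ok'.ok hF.ok.ok (RR.symm h) hi hxa hP
      hPm hS' hS h1 (by omega) rfl rfl
    exact ⟨fun h2 => c1 (by omega) h2, fun h2 => c2 (by omega) h2, fun h2 => c3 (by omega) h2⟩

end Pool.Agent.MWGR.H66
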